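import Mathlib

/-! Heights and ergodic systems: the mean ergodic theorem and generic points -/

set_option autoImplicit false

open Filter Topology Finset MeasureTheory
open scoped BoundedContinuousFunction ENNReal

namespace Pool.Agent.L0h63.EH

/-- the sum over the orbit -/
noncomputable def bs {X : Type} (S : X → X) (f : X → ℝ) (n : ℕ) (x : X) : ℝ :=
  ∑ j ∈ range n, f (S^[j] x)

section

variable {X : Type} [MeasurableSpace X] {μ : Measure X} [IsProbabilityMeasure μ] {S : X → X}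

/-- the Koopman operator -/
noncomputable def Uo (hS : MeasurePreserving S μ μ) : Lp ℝ 2 μ →L[ℝ] Lp ℝ 2 μ :=
  (Lp.compMeasurePreservingₗᵢ ℝ S hS).toContinuousLinearMap

theorem Uo_norm (hS : MeasurePreserving S μ μ) : ‖Uo hS‖ ≤ 1 :=
  LinearIsometry.norm_toContinuousLinearMap_le _

theorem Uo_apply (hS : MeasurePreserving S μ μ) (g : Lp ℝ 2 μ) :
    Uo hS g = Lp.compMeasurePreserving S hS g := rfl

theorem Uo_iter (hS : MeasurePreserving S μ μ) {f : X → ℝ} (hf : MemLp f 2 μ) (j : ℕ) :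
    (Uo hS)^[j] (hf.toLp f) = (hf.comp_measurePreserving (hS.iterate j)).toLp (f ∘ S^[j]) := by
  induction j with
  | zero => rfl
  | succ j ih =>
    rw [Function.iterate_succ_apply', ih, Uo_apply, Lp.toLp_compMeasurePreserving]
    rfl

theorem avg_ae (hS : MeasurePreserving S μ μ) {f : X → ℝ} (hf : MemLp f 2 μ) (n : ℕ) :
    ((birkhoffAverage ℝ (Uo hS) _root_.id n (hf.toLp f) : Lp ℝ 2 μ) : X → ℝ) =ᵐ[μ]
      fun x => (bs S f n x) / n := by
  have h1 : birkhoffAverage ℝ (Uo hS) _root_.id n (hf.toLp f) = ((n : ℝ)⁻¹) •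
      ∑ j ∈ range n, (hf.comp_measurePreserving (hS.iterate j)).toLp (f ∘ S^[j]) := by
    rw [birkhoffAverage, birkhoffSum]
    congr 1
    exact Finset.sum_congr rfl fun j _ => Uo_iter hS hf j
  rw [h1]
  have h2 := Lp.coeFn_finsetSum (range n) (fun j =>
    (hf.comp_measurePreserving (hS.iterate j)).toLp (f ∘ S^[j]))
  have h3 : ∀ᵐ x ∂μ, ∀ j : ℕ, ((hf.comp_measurePreserving (hS.iterate j)).toLp (f ∘ S^[j])) x =
      f (S^[j] x) :=
    ae_all_iff.2 fun j => (hf.comp_measurePreserving (hS.iterate j)).coeFn_toLp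
  filter_upwards [Lp.coeFn_smul ((n : ℝ)⁻¹) (∑ j ∈ range n,
    (hf.comp_measurePreserving (hS.iterate j)).toLp (f ∘ S^[j])), h2, h3] with x e1 e2 e3
  rw [e1, Pi.smul_apply, e2, Finset.sum_apply, smul_eq_mul, bs, div_eq_inv_mul]
  congr 1
  exact Finset.sum_congr rfl fun j _ => e3 j

theorem int_le_norm (g : Lp ℝ 2 μ) : ∫ x, |g x| ∂μ ≤ ‖g‖ := by
  have h1 : eLpNorm g 1 μ ≤ eLpNorm g 2 μ :=
    eLpNorm_le_eLpNorm_of_exponent_le (by norm_num) (Lp.aestronglyMeasurable g)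
  have h2 : ∫ x, |g x| ∂μ = (eLpNorm g 1 μ).toReal := by
    rw [eLpNorm_one_eq_lintegral_enorm, ← integral_norm_eq_lintegral_enorm (Lp.aestronglyMeasurable g)]
    rfl
  rw [h2, Lp.norm_def]
  exact ENNReal.toReal_mono (Lp.eLpNorm_ne_top g) h1

/-- the mean ergodic theorem, for an ergodic map -/
theorem mean_erg (hS : Ergodic S μ) {f : X → ℝ} (hf : MemLp f 2 μ) :
    Tendsto (fun n : ℕ => ∫ x, |bs S f n x / n - ∫ y, f y ∂μ| ∂μ) atTop (𝓝 0) := by
  have hm := hS.toMeasurePreserving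
  obtain ⟨w, hw⟩ : ∃ w : Lp ℝ 2 μ, w = (((Uo hm).eqLocus (1 : Lp ℝ 2 μ →L[ℝ] Lp ℝ 2 μ)).orthogonalProjectionOnto
    (hf.toLp f) : Lp ℝ 2 μ) := ⟨_, rfl⟩
  have hlim := ContinuousLinearMap.tendsto_birkhoffAverage_orthogonalProjection (Uo hm) (Uo_norm hm)
    (hf.toLp f)
  rw [← hw] at hlim
  have hinv : Uo hm w = w := by
    have h1 : w ∈ (Uo hm).eqLocus (1 : Lp ℝ 2 μ →L[ℝ] Lp ℝ 2 μ) := by
      rw [hw]
      exact Submodule.coe_mem _
    exact h1
  have hcomp : (w : X → ℝ) ∘ S =ᵐ[μ] w := by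
    have h1 := Lp.coeFn_compMeasurePreserving w hm
    rw [← Uo_apply, hinv] at h1
    exact h1.symm
  obtain ⟨c, hc⟩ := hS.quasiErgodic.ae_eq_const_of_ae_eq_comp_ae (Lp.aestronglyMeasurable w) hcomp
  -- the means of the absolute values
  have h0 : Tendsto (fun n : ℕ => ‖birkhoffAverage ℝ (Uo hm) _root_.id n (hf.toLp f) - w‖) atTop (𝓝 0) := by
    rw [← tendsto_iff_norm_sub_tendsto_zero]
    exact hlim
  have hle : ∀ n : ℕ, ∫ x, |bs S f n x / n - c| ∂μ ≤
      ‖birkhoffAverage ℝ (Uo hm) _root_.id n (hf.toLp f) - w‖ := by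
    intro n
    refine le_trans (le_of_eq ?_) (int_le_norm _)
    refine integral_congr_ae ?_
    filter_upwards [avg_ae hm hf n, hc, Lp.coeFn_sub (birkhoffAverage ℝ (Uo hm) _root_.id n (hf.toLp f)) w]
      with x e1 e2 e3
    rw [e3, Pi.sub_apply, e1, e2]
    rfl
  have hlim2 : Tendsto (fun n : ℕ => ∫ x, |bs S f n x / n - c| ∂μ) atTop (𝓝 0) :=
    squeeze_zero (fun n => integral_nonneg fun x => abs_nonneg _) hle h0
  have hfi : Integrable f μ := hf.integrable (by norm_num)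
  have hbi : ∀ n : ℕ, Integrable (fun x => bs S f n x / n) μ := by
    intro n
    refine Integrable.div_const ?_ _
    unfold bs
    exact integrable_finsetSum _ fun j _ => (hm.iterate j).integrable_comp_of_integrable hfi
  have hbint : ∀ n : ℕ, 1 ≤ n → ∫ x, bs S f n x / n ∂μ = ∫ y, f y ∂μ := by
    intro n hn
    rw [integral_div]
    unfold bs
    have e0 : ∫ x, ∑ j ∈ range n, f (S^[j] x) ∂μ = ∑ j ∈ range n, ∫ x, f (S^[j] x) ∂μ :=
      integral_finsetSum _ fun j _ => (hm.iterate j).integrable_comp_of_integrable hfi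
    rw [e0]
    have : ∀ j ∈ range n, ∫ x, f (S^[j] x) ∂μ = ∫ y, f y ∂μ := by
      intro j _
      have h := (hm.iterate j)
      have h1 : ∫ y, f y ∂(Measure.map S^[j] μ) = ∫ x, f (S^[j] x) ∂μ :=
        integral_map h.aemeasurable (by rw [h.map_eq]; exact hfi.aestronglyMeasurable)
      rw [← h1, h.map_eq]
    rw [Finset.sum_congr rfl this, Finset.sum_const, card_range, nsmul_eq_mul]
    have : (n : ℝ) ≠ 0 := by
      have : (0 : ℝ) < n := by exact_mod_cast hn
      exact this.ne'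
    field_simp
  have hcf : c = ∫ y, f y ∂μ := by
    have h1 : ∀ n : ℕ, 1 ≤ n → |(∫ y, f y ∂μ) - c| ≤ ∫ x, |bs S f n x / n - c| ∂μ := by
      intro n hn
      have e : (∫ y, f y ∂μ) - c = ∫ x, (bs S f n x / n - c) ∂μ := by
        rw [integral_sub (hbi n) (integrable_const _), hbint n hn, integral_const, probReal_univ, one_smul]
      rw [e]
      exact abs_integral_le_integral_abs
    have h2 : |(∫ y, f y ∂μ) - c| ≤ 0 := by
      refine ge_of_tendsto hlim2 ?_
      filter_upwards [eventually_ge_atTop 1] with n hn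
      exact h1 n hn
    have h3 := abs_nonpos_iff.1 h2
    linarith
  rw [← hcf]
  exact hlim2

end

/-- the point `x` is generic for `μ` -/
def Generic {X : Type} [TopologicalSpace X] [MeasurableSpace X] (S : X → X) (μ : Measure X) (x : X) :
    Prop :=
  ∀ f : X →ᵇ ℝ, Tendsto (fun K : ℕ => (∑ k ∈ range K, f (S^[k] x)) / K) atTop (𝓝 (∫ y, f y ∂μ))

/-- most short averages along a generic orbit are close to the integral -/
theorem short {X : Type} [TopologicalSpace X] [MeasurableSpace X] [BorelSpace X] {S : X → X}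
    {μ : Measure X} [IsProbabilityMeasure μ] {x : X} (hc : Continuous S) (hS : Ergodic S μ)
    (hx : Generic S μ x) (f : X →ᵇ ℝ) {ε : ℝ} (hε : 0 < ε) :
    ∃ J : ℕ, 1 ≤ J ∧ ∀ᶠ K : ℕ in atTop,
      (∑ k ∈ range K, |(∑ j ∈ range J, f (S^[k + j] x)) / J - ∫ y, f y ∂μ|) ≤ ε * K := by
  have hf2 : MemLp (f : X → ℝ) 2 μ := by
    refine MemLp.of_bound (f.continuous.aestronglyMeasurable) ‖f‖ ?_
    exact Eventually.of_forall fun y => f.norm_coe_le_norm y
  obtain ⟨J, hJ1, hJ2⟩ : ∃ J : ℕ, 1 ≤ J ∧ ∫ y, |bs S f J y / J - ∫ y, f y ∂μ| ∂μ < ε := by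
    have h := (mean_erg hS hf2).eventually (gt_mem_nhds hε)
    obtain ⟨J, hJ⟩ := (h.and (eventually_ge_atTop 1)).exists
    exact ⟨J, hJ.2, hJ.1⟩
  refine ⟨J, hJ1, ?_⟩
  have hcont : Continuous fun y => |bs S f J y / J - ∫ y, f y ∂μ| := by
    unfold bs
    refine ((Continuous.div_const ?_ _).sub continuous_const).abs
    exact continuous_finsetSum _ fun j _ => f.continuous.comp (hc.iterate j)
  have hbd : ∀ y, |(|bs S f J y / J - ∫ y, f y ∂μ|)| ≤ ‖f‖ + |∫ y, f y ∂μ| := by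
    intro y
    rw [abs_abs]
    refine (abs_sub _ _).trans (add_le_add ?_ le_rfl)
    have hJ0 : (0 : ℝ) < J := by exact_mod_cast hJ1
    rw [abs_div, abs_of_pos hJ0, div_le_iff₀ hJ0]
    unfold bs
    refine (abs_sum_le_sum_abs _ _).trans ?_
    refine (Finset.sum_le_sum fun j _ => f.norm_coe_le_norm (S^[j] y)).trans ?_
    rw [Finset.sum_const, card_range, nsmul_eq_mul, mul_comm]
  obtain ⟨F, hF⟩ : ∃ F : X →ᵇ ℝ, ∀ y, F y = |bs S f J y / J - ∫ y, f y ∂μ| :=
    ⟨BoundedContinuousFunction.ofNormedAddCommGroup _ hcont _ hbd, fun _ => rfl⟩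
  have h1 := hx F
  have h2 : ∫ y, F y ∂μ < ε := by simp only [hF]; exact hJ2
  have h3 := h1.eventually (gt_mem_nhds h2)
  filter_upwards [h3, eventually_ge_atTop 1] with K hK hK1
  have hK0 : (0 : ℝ) < K := by exact_mod_cast hK1
  rw [div_lt_iff₀ hK0] at hK
  refine le_trans (le_of_eq ?_) hK.le
  refine Finset.sum_congr rfl fun k _ => ?_
  rw [hF]
  unfold bs
  congr 3
  refine Finset.sum_congr rfl fun j _ => ?_
  rw [add_comm k j, Function.iterate_add_apply]

end Pool.Agent.L0h63.EH
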