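import Mathlib

/-! Heights and ergodic systems: from continuous functions to sets with null boundary -/

set_option autoImplicit false

open Filter Topology Finset MeasureTheory
open scoped BoundedContinuousFunction ENNReal NNReal

namespace Pool.Agent.L0h63.EH

section

variable {X : Type} [TopologicalSpace X] [MeasurableSpace X] [BorelSpace X] [HasOuterApproxClosed X]
  {μ : Measure X} [IsProbabilityMeasure μ]

/-- a continuous function slightly larger than the indicator function of a closed set -/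
theorem closed_up {F : Set X} (hF : IsClosed F) {ε : ℝ} (hε : 0 < ε) : ∃ g : X →ᵇ ℝ,
    (∀ y, 0 ≤ g y ∧ g y ≤ 1) ∧ (∀ y ∈ F, g y = 1) ∧ ∫ y, g y ∂μ ≤ μ.real F + ε := by
  have h1 := HasOuterApproxClosed.tendsto_lintegral_apprSeq hF μ
  have h2 : Tendsto (fun n => (∫⁻ x, (hF.apprSeq n x : ℝ≥0∞) ∂μ).toReal) atTop (𝓝 (μ.real F)) :=
    (ENNReal.tendsto_toReal (measure_ne_top μ F)).comp h1
  obtain ⟨n, hn⟩ := (h2.eventually (gt_mem_nhds (show μ.real F < μ.real F + ε by linarith))).exists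
  have hc : Continuous fun y => ((hF.apprSeq n y : ℝ≥0) : ℝ) :=
    NNReal.continuous_coe.comp (hF.apprSeq n).continuous
  have hb : ∀ y, 0 ≤ ((hF.apprSeq n y : ℝ≥0) : ℝ) ∧ ((hF.apprSeq n y : ℝ≥0) : ℝ) ≤ 1 := fun y =>
    ⟨NNReal.coe_nonneg _, by exact_mod_cast HasOuterApproxClosed.apprSeq_apply_le_one hF n y⟩
  refine ⟨BoundedContinuousFunction.ofNormedAddCommGroup _ hc 1 fun y => by
    rw [Real.norm_eq_abs, abs_of_nonneg (hb y).1]; exact (hb y).2, hb, fun y hy => ?_, ?_⟩
  · change ((hF.apprSeq n y : ℝ≥0) : ℝ) = 1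
    rw [HasOuterApproxClosed.apprSeq_apply_eq_one hF n hy]
    rfl
  · change ∫ y, ((hF.apprSeq n y : ℝ≥0) : ℝ) ∂μ ≤ _
    rw [integral_eq_lintegral_of_nonneg_ae (Eventually.of_forall fun y => (hb y).1)
      hc.aestronglyMeasurable]
    refine le_trans (le_of_eq ?_) hn.le
    congr 1
    refine lintegral_congr fun y => ?_
    rw [ENNReal.ofReal_coe_nnreal]

theorem sandwich {A : Set X} (hA : μ (frontier A) = 0) {ε : ℝ} (hε : 0 < ε) : ∃ f g : X →ᵇ ℝ,
    (∀ y, y ∈ A → 1 ≤ f y) ∧ (∀ y, 0 ≤ f y) ∧ (∀ y, y ∉ A → g y ≤ 0) ∧ (∀ y, g y ≤ 1) ∧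
    ∫ y, f y ∂μ ≤ μ.real A + ε ∧ μ.real A - ε ≤ ∫ y, g y ∂μ := by
  obtain ⟨f, f1, f2, f3⟩ := closed_up (μ := μ) (isClosed_closure (s := A)) hε
  obtain ⟨g, g1, g2, g3⟩ := closed_up (μ := μ) (isOpen_interior (s := A)).isClosed_compl hε
  have e1 : μ.real (closure A) = μ.real A := by
    rw [measureReal_def, measureReal_def, measure_closure_of_null_frontier hA]
  have e2 : μ.real (interior A) = μ.real A := by
    rw [measureReal_def, measureReal_def, measure_interior_of_null_frontier hA]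
  have e3 : μ.real (interior A)ᶜ = 1 - μ.real A := by
    rw [← e2, measureReal_compl isOpen_interior.measurableSet, probReal_univ]
  refine ⟨f, 1 - g, fun y hy => (f2 y (subset_closure hy)).ge, fun y => (f1 y).1, fun y hy => ?_,
    fun y => ?_, by rw [← e1]; exact f3, ?_⟩
  · have h : g y = 1 := g2 y fun h => hy (interior_subset h)
    change 1 - g y ≤ 0
    rw [h]
    norm_num
  · change 1 - g y ≤ 1
    linarith [(g1 y).1]
  · have e : ∫ y, (1 - g) y ∂μ = 1 - ∫ y, g y ∂μ := by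
      change ∫ y, (1 - g y) ∂μ = _
      rw [integral_sub (integrable_const _) (g.integrable μ), integral_const, probReal_univ, one_smul]
    rw [e]
    rw [e3] at g3
    linarith

open scoped Classical in
theorem sets {x : ℕ → X} {w : ℕ → ℕ → ℝ} {V : ℝ} (hw : ∀ K k, 0 ≤ w K k)
    (h : ∀ f : X →ᵇ ℝ, Tendsto (fun K : ℕ => (∑ k ∈ range K, w K k * f (x k)) / K) atTop
      (𝓝 (V * ∫ y, f y ∂μ))) {A : Set X} (hA : μ (frontier A) = 0) :
    Tendsto (fun K : ℕ => (∑ k ∈ (range K).filter (fun k => x k ∈ A), w K k) / K) atTop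
      (𝓝 (V * μ.real A)) := by
  have hV : 0 ≤ V := by
    have h1 := h 1
    have e : V * ∫ y, (1 : X →ᵇ ℝ) y ∂μ = V := by
      change V * ∫ _, (1 : ℝ) ∂μ = V
      rw [integral_const, probReal_univ, one_smul, mul_one]
    rw [e] at h1
    refine ge_of_tendsto' h1 fun K => ?_
    refine div_nonneg (Finset.sum_nonneg fun k _ => ?_) (Nat.cast_nonneg _)
    exact mul_nonneg (hw K k) zero_le_one
  rw [Metric.tendsto_atTop]
  intro ε hε
  obtain ⟨f, g, f1, f2, g1, g2, f3, g3⟩ := sandwich (μ := μ) hA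
    (show 0 < ε / (2 * (V + 1)) by positivity)
  have hVe : V * (ε / (2 * (V + 1))) ≤ ε / 2 := by
    have : V * (ε / (2 * (V + 1))) = V / (V + 1) * (ε / 2) := by field_simp
    rw [this]
    have h3 : V / (V + 1) ≤ 1 := by
      rw [div_le_one (by positivity)]
      linarith
    calc _ ≤ 1 * (ε / 2) := mul_le_mul_of_nonneg_right h3 (by positivity)
      _ = _ := one_mul _
  have u1 : V * ∫ y, f y ∂μ < V * μ.real A + ε := by
    have := mul_le_mul_of_nonneg_left f3 hV
    nlinarith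
  have u2 : V * μ.real A - ε < V * ∫ y, g y ∂μ := by
    have := mul_le_mul_of_nonneg_left g3 hV
    nlinarith
  have v1 := (h f).eventually (gt_mem_nhds u1)
  have v2 := (h g).eventually (lt_mem_nhds u2)
  obtain ⟨K0, hK0⟩ := eventually_atTop.1 (v1.and v2)
  refine ⟨K0, fun K hK => ?_⟩
  obtain ⟨k1, k2⟩ := hK0 K hK
  have c1 : (∑ k ∈ (range K).filter (fun k => x k ∈ A), w K k) / K ≤
      (∑ k ∈ range K, w K k * f (x k)) / K := by
    refine div_le_div_of_nonneg_right ?_ (Nat.cast_nonneg _)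
    rw [Finset.sum_filter]
    refine Finset.sum_le_sum fun k _ => ?_
    split_ifs with hk
    · have := mul_le_mul_of_nonneg_left (f1 _ hk) (hw K k)
      linarith
    · exact mul_nonneg (hw K k) (f2 _)
  have c2 : (∑ k ∈ range K, w K k * g (x k)) / K ≤
      (∑ k ∈ (range K).filter (fun k => x k ∈ A), w K k) / K := by
    refine div_le_div_of_nonneg_right ?_ (Nat.cast_nonneg _)
    rw [Finset.sum_filter]
    refine Finset.sum_le_sum fun k _ => ?_
    split_ifs with hk
    · have := mul_le_mul_of_nonneg_left (g2 (x k)) (hw K k)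
      linarith
    · exact mul_nonpos_of_nonneg_of_nonpos (hw K k) (g1 _ hk)
  rw [Real.dist_eq, abs_lt]
  constructor <;> linarith

end

end Pool.Agent.L0h63.EH
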