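import Pool.Agent.L0h63.EH.Hts
import Pool.Agent.L0h63.EH.Erg
import Pool.Agent.L0h63.EH.Sets

/-! Heights and ergodic systems: truncated heights, examples -/

set_option autoImplicit false

open Filter Topology Finset MeasureTheory
open scoped BoundedContinuousFunction

namespace Pool.Agent.L0h63.EH

open Pool.Agent.Results.MP_2b866c_nt.HeightLaw (C height HasOddDensity bound Phi)
open Pool.Agent.Results.MP_2b866c_nt.TruncatedAverages (truncHeight)

/-- the truncated heights -/
noncomputable def tr (Λ : ℝ) : ℕ → ℕ → ℝ := fun N n =>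
  (truncHeight n ⌊Λ * Real.log N⌋₊ : ℝ) / Real.log N

theorem tr_bd {Λ : ℝ} (hΛ : 0 ≤ Λ) (N n : ℕ) (hN : 2 ≤ N) : 0 ≤ tr Λ N n ∧ tr Λ N n ≤ Λ := by
  have hl : 0 < Real.log (N : ℝ) := Real.log_pos (by exact_mod_cast (by omega : 1 < N))
  have h1 : truncHeight n ⌊Λ * Real.log N⌋₊ ≤ ⌊Λ * Real.log N⌋₊ := by
    unfold truncHeight
    exact ENat.toNat_le_of_le_coe (min_le_right _ _)
  have h2 : (truncHeight n ⌊Λ * Real.log N⌋₊ : ℝ) ≤ Λ * Real.log N :=
    (Nat.cast_le.2 h1).trans (Nat.floor_le (by positivity))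
  unfold tr
  exact ⟨by positivity, by rw [div_le_iff₀ hl]; exact h2⟩

theorem tr_inv {Λ : ℝ} (hΛ : 0 ≤ Λ) : Inv (tr Λ) := by
  refine inv_of (B := Λ) (fun N n hN => tr_bd hΛ N n hN) fun j N n hg => ?_
  have h : Pool.Agent.Results.MP_2b866c_nt.TruncatedAverages.height (n + 2 * j) =
      Pool.Agent.Results.MP_2b866c_nt.TruncatedAverages.height n := hg
  unfold tr truncHeight
  rw [h]

theorem tr_avg {δ : ℝ} (hδ : HasOddDensity (fun m => height m ≠ ⊤) δ) {Λ : ℝ}
    (hΛ : 2 / Real.log (16 / 9) < Λ) :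
    Tendsto (mn (tr Λ)) atTop (𝓝 (δ * (2 / Real.log (16 / 9)) + (1 - δ) * Λ)) := by
  obtain ⟨δ', -, -, -, h4, -, h6⟩ := Pool.Agent.Results.MP_2b866c_nt.TruncatedAverages.result
  have e : δ' = δ := tendsto_nhds_unique h4 hδ
  rw [e] at h6
  refine ((h6 Λ hΛ).comp two_mul_top).congr' ?_
  filter_upwards [eventually_ge_atTop 1] with K hK
  have hK0 : (K : ℝ) ≠ 0 := by
    have : (0 : ℝ) < K := by exact_mod_cast hK
    exact this.ne'
  have hs : ∀ F : ℕ → ℝ, ∑ m ∈ (Icc 1 (2 * K)).filter (fun m => m % 2 = 1), F m =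
      ∑ k ∈ range K, F (2 * k + 1) := by
    intro F
    have e1 : (Icc 1 (2 * K)).filter (fun m => m % 2 = 1) = (range K).image (fun k => 2 * k + 1) := by
      ext m
      simp only [mem_filter, mem_Icc, mem_image, mem_range]
      constructor
      · rintro ⟨h1, h2⟩
        exact ⟨m / 2, by omega, by omega⟩
      · rintro ⟨k, h1, rfl⟩
        omega
    rw [e1, Finset.sum_image fun a _ b _ h => by
      have : 2 * a + 1 = 2 * b + 1 := h
      omega]
  rw [Function.comp_apply, hs]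
  unfold mn tr
  rw [← Finset.sum_div]
  push_cast
  field_simp

/-- most short averages are close to `c` -/
def Short (g : ℕ → ℝ) (c : ℝ) : Prop := ∀ ε : ℝ, 0 < ε → ∃ J : ℕ, 1 ≤ J ∧ ∀ᶠ K : ℕ in atTop,
  (∑ k ∈ range K, |(∑ j ∈ range J, g (k + j)) / J - c|) ≤ ε * K

theorem short_of_bd {g : ℕ → ℝ} {A : ℝ} (h : ∀ k J : ℕ, |∑ j ∈ range J, g (k + j)| ≤ A) : Short g 0 := by
  intro ε hε
  have hA : 0 ≤ A := (abs_nonneg _).trans (h 0 0)
  obtain ⟨J, hJ⟩ := exists_nat_gt (A / ε)
  have hJ0 : (0 : ℝ) < J := lt_of_le_of_lt (by positivity) hJ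
  have hJ1 : 1 ≤ J := by exact_mod_cast hJ0
  refine ⟨J, hJ1, Eventually.of_forall fun K => ?_⟩
  have h1 : ∀ k ∈ range K, |(∑ j ∈ range J, g (k + j)) / J - 0| ≤ ε := by
    intro k _
    rw [sub_zero, abs_div, abs_of_pos hJ0, div_le_iff₀ hJ0]
    rw [div_lt_iff₀ hε] at hJ
    have := h k J
    linarith
  refine (Finset.sum_le_sum h1).trans (le_of_eq ?_)
  rw [Finset.sum_const, card_range, nsmul_eq_mul, mul_comm]

/-- exponential sums -/
theorem short_cos {α : ℝ} (hα : ∀ z : ℤ, α ≠ z) (β : ℝ) :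
    Short (fun k : ℕ => Real.cos (2 * Real.pi * (α * k + β))) 0 := by
  have hs : Real.sin (Real.pi * α) ≠ 0 := by
    intro h
    obtain ⟨z, hz⟩ := Real.sin_eq_zero_iff.1 h
    apply hα z
    have := Real.pi_pos
    have h1 : Real.pi * (z : ℝ) = Real.pi * α := by rw [mul_comm]; exact hz
    exact (mul_left_cancel₀ this.ne' h1).symm
  refine short_of_bd (A := 1 / |Real.sin (Real.pi * α)|) fun k J => ?_
  have ht : ∀ J : ℕ, 2 * Real.sin (Real.pi * α) * ∑ j ∈ range J,
      Real.cos (2 * Real.pi * (α * ((k + j : ℕ) : ℝ) + β)) =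
      Real.sin (2 * Real.pi * (α * ((k : ℝ) + J) + β) - Real.pi * α) -
        Real.sin (2 * Real.pi * (α * (k : ℝ) + β) - Real.pi * α) := by
    intro J
    induction J with
    | zero => simp
    | succ J ih =>
      rw [Finset.sum_range_succ, mul_add, ih]
      have e1 : 2 * Real.pi * (α * ((k : ℝ) + ((J + 1 : ℕ) : ℝ)) + β) - Real.pi * α =
          2 * Real.pi * (α * ((k : ℝ) + J) + β) + Real.pi * α := by
        push_cast
        ring
      rw [e1, Real.sin_add, Real.sin_sub (2 * Real.pi * (α * ((k : ℝ) + J) + β))]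
      push_cast
      ring
  have h1 := ht J
  have h2 : |2 * Real.sin (Real.pi * α) * ∑ j ∈ range J,
      Real.cos (2 * Real.pi * (α * ((k + j : ℕ) : ℝ) + β))| ≤ 2 := by
    rw [h1]
    refine (abs_sub _ _).trans ?_
    have := Real.abs_sin_le_one (2 * Real.pi * (α * ((k : ℝ) + J) + β) - Real.pi * α)
    have := Real.abs_sin_le_one (2 * Real.pi * (α * (k : ℝ) + β) - Real.pi * α)
    linarith
  have h3 : 0 < |Real.sin (Real.pi * α)| := abs_pos.2 hs
  rw [abs_mul, abs_mul, abs_two] at h2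
  rw [le_div_iff₀ h3]
  linarith

/-- the parity of the number of binary digits `1` of `2 k + 1` -/
noncomputable def tm (k : ℕ) : ℝ := (-1) ^ (Nat.digits 2 (2 * k + 1)).sum

theorem tm_eq (k : ℕ) : tm k = - (-1) ^ (Nat.digits 2 k).sum := by
  unfold tm
  rw [show 2 * k + 1 = 1 + 2 * k by ring,
    Nat.digits_add 2 one_lt_two 1 k one_lt_two (Or.inl one_ne_zero), List.sum_cons, pow_add, pow_one]
  ring

theorem short_tm : Short tm 0 := by
  have hpair : ∀ i, tm (2 * i) + tm (2 * i + 1) = 0 := by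
    intro i
    have h1 : tm (2 * i + 1) = - tm i := by
      rw [tm_eq]
      rfl
    have h2 : tm (2 * i) = tm i := by
      rw [tm_eq, tm_eq]
      rcases Nat.eq_zero_or_pos i with rfl | hi
      · rfl
      · have : Nat.digits 2 (2 * i) = 0 :: Nat.digits 2 i := Nat.digits_base_mul one_lt_two hi
        rw [this, List.sum_cons, zero_add]
    rw [h1, h2]
    ring
  have hab : ∀ i, |tm i| ≤ 1 := by
    intro i
    unfold tm
    rw [abs_pow, abs_neg, abs_one, one_pow]
  -- the sums from `0`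
  have hS : ∀ n, |∑ i ∈ range n, tm i| ≤ 1 := by
    intro n
    have he : ∀ m, ∑ i ∈ range (2 * m), tm i = 0 := by
      intro m
      induction m with
      | zero => simp
      | succ m ih =>
        rw [show 2 * (m + 1) = 2 * m + 1 + 1 by ring, Finset.sum_range_succ, Finset.sum_range_succ, ih,
          zero_add]
        exact hpair m
    rcases Nat.even_or_odd' n with ⟨m, rfl | rfl⟩
    · rw [he]
      simp
    · rw [Finset.sum_range_succ, he, zero_add]
      exact hab _
  refine short_of_bd (A := 2) fun k J => ?_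
  have h1 := Finset.sum_range_add tm k J
  have e : ∑ j ∈ range J, tm (k + j) = (∑ i ∈ range (k + J), tm i) - ∑ i ∈ range k, tm i := by
    linarith
  rw [e]
  refine (abs_sub _ _).trans ?_
  have := hS (k + J)
  have := hS k
  linarith

end Pool.Agent.L0h63.EH
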