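import Mathlib

/-! Heights and ergodic systems: almost invariant weights and sequences with small short averages -/

set_option autoImplicit false

open Filter Topology Finset MeasureTheory
open scoped BoundedContinuousFunction ENNReal

namespace Pool.Agent.L0h63.EH

theorem shift_sum (F : ℕ → ℝ) (K j : ℕ) {C : ℝ} (hF : ∀ k, |F k| ≤ C) :
    |(∑ k ∈ range K, F k) - ∑ k ∈ range K, F (k + j)| ≤ 2 * j * C := by
  have h1 := Finset.sum_range_add F j K
  have h2 := Finset.sum_range_add F K j
  rw [add_comm j K] at h1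
  have h3 : ∑ k ∈ range K, F (k + j) = ∑ k ∈ range K, F (j + k) :=
    Finset.sum_congr rfl fun k _ => by rw [add_comm]
  have e : (∑ k ∈ range K, F k) - ∑ k ∈ range K, F (k + j) =
      (∑ k ∈ range j, F k) - ∑ k ∈ range j, F (K + k) := by
    rw [h3]
    linarith
  rw [e]
  have b1 : |∑ k ∈ range j, F k| ≤ j * C := by
    refine (abs_sum_le_sum_abs _ _).trans ((Finset.sum_le_sum fun k _ => hF k).trans ?_)
    rw [Finset.sum_const, card_range, nsmul_eq_mul]
  have b2 : |∑ k ∈ range j, F (K + k)| ≤ j * C := by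
    refine (abs_sum_le_sum_abs _ _).trans ((Finset.sum_le_sum fun k _ => hF (K + k)).trans ?_)
    rw [Finset.sum_const, card_range, nsmul_eq_mul]
  calc _ ≤ |∑ k ∈ range j, F k| + |∑ k ∈ range j, F (K + k)| := abs_sub _ _
    _ ≤ 2 * j * C := by linarith

theorem weight {w : ℕ → ℕ → ℝ} {V B : ℝ} (hB : ∀ K k, 1 ≤ K → |w K k| ≤ B)
    (hinv : ∀ j : ℕ, Tendsto (fun K : ℕ => (∑ k ∈ range K, |w K (k + j) - w K k|) / K) atTop (𝓝 0))
    (hV : Tendsto (fun K : ℕ => (∑ k ∈ range K, w K k) / K) atTop (𝓝 V))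
    {g : ℕ → ℝ} {M c : ℝ} (hM : ∀ k, |g k| ≤ M)
    (hg : ∀ ε : ℝ, 0 < ε → ∃ J : ℕ, 1 ≤ J ∧ ∀ᶠ K : ℕ in atTop,
      (∑ k ∈ range K, |(∑ j ∈ range J, g (k + j)) / J - c|) ≤ ε * K) :
    Tendsto (fun K : ℕ => (∑ k ∈ range K, w K k * g k) / K) atTop (𝓝 (V * c)) := by
  have hB0 : 0 ≤ B := (abs_nonneg _).trans (hB 1 0 le_rfl)
  have hM0 : 0 ≤ M := (abs_nonneg _).trans (hM 0)
  suffices h : Tendsto (fun K : ℕ => (∑ k ∈ range K, w K k * g k) / K -
      (∑ k ∈ range K, w K k) / K * c) atTop (𝓝 0) by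
    have h1 := h.add (hV.mul_const c)
    rw [zero_add] at h1
    refine h1.congr fun K => ?_
    ring
  rw [Metric.tendsto_atTop]
  intro ε hε
  obtain ⟨J, hJ1, hJ⟩ := hg (ε / (4 * (B + 1))) (by positivity)
  have hJ0 : (0 : ℝ) < J := by exact_mod_cast hJ1
  -- the error terms
  have t1 : Tendsto (fun K : ℕ => M / J * ∑ j ∈ range J,
      (∑ k ∈ range K, |w K (k + j) - w K k|) / K) atTop (𝓝 0) := by
    have h := (tendsto_finsetSum (range J) fun j _ => hinv j).const_mul (M / J)
    rw [Finset.sum_const_zero, mul_zero] at h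
    exact h
  have t2 : Tendsto (fun K : ℕ => 2 * J * (B * M) / (K : ℝ)) atTop (𝓝 0) :=
    tendsto_const_div_atTop_nhds_zero_nat _
  have u1 := t1.eventually (gt_mem_nhds (show (0 : ℝ) < ε / 4 by positivity))
  have u2 := t2.eventually (gt_mem_nhds (show (0 : ℝ) < ε / 4 by positivity))
  have hev : ∀ᶠ K : ℕ in atTop, dist ((∑ k ∈ range K, w K k * g k) / K -
      (∑ k ∈ range K, w K k) / K * c) 0 < ε := by
    filter_upwards [hJ, u1, u2, eventually_ge_atTop 1] with K hK h1 h2 hK1
    have hK0 : (0 : ℝ) < K := by exact_mod_cast hK1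
    rw [Real.dist_eq, sub_zero]
    -- for each `j`
    have a1 : ∀ j ∈ range J, |(∑ k ∈ range K, w K k * g k) - ∑ k ∈ range K, w K k * g (k + j)| ≤
        2 * J * (B * M) + M * ∑ k ∈ range K, |w K (k + j) - w K k| := by
      intro j hj
      have hj' : (j : ℝ) ≤ J := by exact_mod_cast (mem_range.1 hj).le
      have e : (∑ k ∈ range K, w K k * g k) - ∑ k ∈ range K, w K k * g (k + j) =
          ((∑ k ∈ range K, w K k * g k) - ∑ k ∈ range K, w K (k + j) * g (k + j)) +
            ∑ k ∈ range K, (w K (k + j) - w K k) * g (k + j) := by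
        have : ∑ k ∈ range K, (w K (k + j) - w K k) * g (k + j) =
            (∑ k ∈ range K, w K (k + j) * g (k + j)) - ∑ k ∈ range K, w K k * g (k + j) := by
          rw [← Finset.sum_sub_distrib]
          exact Finset.sum_congr rfl fun k _ => sub_mul _ _ _
        rw [this]
        ring
      rw [e]
      refine (abs_add_le _ _).trans (add_le_add ?_ ?_)
      · have hF : ∀ k, |w K k * g k| ≤ B * M := fun k => by
          rw [abs_mul]
          exact mul_le_mul (hB K k hK1) (hM k) (abs_nonneg _) hB0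
        refine (shift_sum (fun k => w K k * g k) K j hF).trans ?_
        have : 0 ≤ B * M := mul_nonneg hB0 hM0
        nlinarith
      · refine (abs_sum_le_sum_abs _ _).trans ?_
        rw [Finset.mul_sum]
        refine Finset.sum_le_sum fun k _ => ?_
        rw [abs_mul, mul_comm]
        exact mul_le_mul_of_nonneg_right (hM _) (abs_nonneg _)
    have a2 : |(∑ k ∈ range K, w K k * g k) -
        ∑ k ∈ range K, w K k * ((∑ j ∈ range J, g (k + j)) / J)| ≤
        2 * J * (B * M) + M / J * ∑ j ∈ range J, ∑ k ∈ range K, |w K (k + j) - w K k| := by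
      have e : (∑ k ∈ range K, w K k * g k) -
          ∑ k ∈ range K, w K k * ((∑ j ∈ range J, g (k + j)) / J) =
          (∑ j ∈ range J, ((∑ k ∈ range K, w K k * g k) - ∑ k ∈ range K, w K k * g (k + j))) / J := by
        rw [Finset.sum_sub_distrib, Finset.sum_const, card_range, nsmul_eq_mul, Finset.sum_comm,
          sub_div, mul_div_cancel_left₀ _ hJ0.ne', Finset.sum_div]
        congr 1
        refine Finset.sum_congr rfl fun k _ => ?_
        rw [← Finset.mul_sum, mul_div_assoc]
      rw [e, abs_div, abs_of_pos hJ0, div_le_iff₀ hJ0]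
      refine (abs_sum_le_sum_abs _ _).trans ((Finset.sum_le_sum a1).trans (le_of_eq ?_))
      rw [Finset.sum_add_distrib, Finset.sum_const, card_range, nsmul_eq_mul, ← Finset.mul_sum]
      field_simp
    have a3 : |(∑ k ∈ range K, w K k * ((∑ j ∈ range J, g (k + j)) / J)) -
        (∑ k ∈ range K, w K k) * c| ≤ B * (ε / (4 * (B + 1)) * K) := by
      have e : (∑ k ∈ range K, w K k * ((∑ j ∈ range J, g (k + j)) / J)) -
          (∑ k ∈ range K, w K k) * c =
          ∑ k ∈ range K, w K k * ((∑ j ∈ range J, g (k + j)) / J - c) := by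
        rw [Finset.sum_mul, ← Finset.sum_sub_distrib]
        exact Finset.sum_congr rfl fun k _ => (mul_sub _ _ _).symm
      rw [e]
      refine (abs_sum_le_sum_abs _ _).trans ?_
      refine le_trans ?_ (mul_le_mul_of_nonneg_left hK hB0)
      rw [Finset.mul_sum]
      refine Finset.sum_le_sum fun k _ => ?_
      rw [abs_mul]
      exact mul_le_mul_of_nonneg_right (hB K k hK1) (abs_nonneg _)
    have a4 : B * (ε / (4 * (B + 1)) * K) ≤ ε / 4 * K := by
      have : B * (ε / (4 * (B + 1)) * K) = (B / (B + 1)) * (ε / 4 * K) := by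
        field_simp
      rw [this]
      have h3 : B / (B + 1) ≤ 1 := by
        rw [div_le_one (by positivity)]
        linarith
      have h4 : 0 ≤ ε / 4 * K := by positivity
      calc _ ≤ 1 * (ε / 4 * K) := mul_le_mul_of_nonneg_right h3 h4
        _ = _ := one_mul _
    have e : (∑ k ∈ range K, w K k * g k) / K - (∑ k ∈ range K, w K k) / K * c =
        (((∑ k ∈ range K, w K k * g k) -
        ∑ k ∈ range K, w K k * ((∑ j ∈ range J, g (k + j)) / J)) +
        ((∑ k ∈ range K, w K k * ((∑ j ∈ range J, g (k + j)) / J)) -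
        (∑ k ∈ range K, w K k) * c)) / K := by
      field_simp
      ring
    rw [e, abs_div, abs_of_pos hK0, div_lt_iff₀ hK0]
    refine lt_of_le_of_lt (abs_add_le _ _) ?_
    have h3 : M / J * ∑ j ∈ range J, ∑ k ∈ range K, |w K (k + j) - w K k| ≤ ε / 4 * K := by
      have : M / J * ∑ j ∈ range J, ∑ k ∈ range K, |w K (k + j) - w K k| =
          (M / J * ∑ j ∈ range J, (∑ k ∈ range K, |w K (k + j) - w K k|) / K) * K := by
        rw [← Finset.sum_div]
        field_simp
      rw [this]
      exact mul_le_mul_of_nonneg_right h1.le hK0.le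
    have h4 : 2 * J * (B * M) ≤ ε / 4 * K := by
      rw [div_lt_iff₀ hK0] at h2
      exact h2.le
    nlinarith
  obtain ⟨K0, hK0⟩ := eventually_atTop.1 hev
  exact ⟨K0, hK0⟩

end Pool.Agent.L0h63.EH
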