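import Pool.Agent.Results.MP_2b866c_nt.HeightLaw
import Pool.Agent.Results.MP_2b866c_nt.HeightRuns
import Pool.Agent.Results.MP_2b866c_nt.TruncatedAverages
import Pool.Agent.L0h63.EH.Wt

/-! Heights and ergodic systems: the weights given by the heights are almost invariant -/

set_option autoImplicit false

open Filter Topology Finset

namespace Pool.Agent.L0h63.EH

open Pool.Agent.Results.MP_2b866c_nt.HeightLaw (C height HasOddDensity bound Phi)
open Pool.Agent.Results.MP_2b866c_nt.TruncatedAverages (truncHeight)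

open scoped Classical in
/-- the indicator function as a weight -/
noncomputable def ind (P : ℕ → Prop) : ℕ → ℕ → ℝ := fun _ n => if P n then 1 else 0

theorem ind_nonneg (P : ℕ → Prop) (N n : ℕ) : 0 ≤ ind P N n := by
  unfold ind
  split_ifs <;> norm_num

theorem ind_le (P : ℕ → Prop) (N n : ℕ) : ind P N n ≤ 1 := by
  unfold ind
  split_ifs <;> norm_num

/-- the mean over the odd integers -/
noncomputable def mn (w : ℕ → ℕ → ℝ) (K : ℕ) : ℝ := (∑ k ∈ range K, w (2 * K) (2 * k + 1)) / K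

theorem two_mul_top : Tendsto (fun K : ℕ => 2 * K) atTop atTop :=
  tendsto_atTop_mono (fun K => by change K ≤ 2 * K; omega) tendsto_id

open scoped Classical in
theorem odd_avg {P : ℕ → Prop} {δ : ℝ} (h : HasOddDensity P δ) :
    Tendsto (mn (ind P)) atTop (𝓝 δ) := by
  have h2 := Tendsto.comp h two_mul_top
  refine h2.congr' ?_
  filter_upwards [eventually_ge_atTop 1] with K hK
  have e : {m : ℕ | m ≤ 2 * K ∧ Odd m ∧ P m} =
      (((range K).filter (fun k => P (2 * k + 1))).image (fun k => 2 * k + 1) : Finset ℕ) := by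
    ext m
    simp only [Set.mem_ofPred_eq, coe_image, Set.mem_image, mem_coe, mem_filter, mem_range]
    constructor
    · rintro ⟨h1, ⟨k, rfl⟩, h3⟩
      exact ⟨k, ⟨by omega, h3⟩, rfl⟩
    · rintro ⟨k, ⟨h1, h2⟩, rfl⟩
      exact ⟨by omega, ⟨k, rfl⟩, h2⟩
  have hK0 : (K : ℝ) ≠ 0 := by
    have : (0 : ℝ) < K := by exact_mod_cast hK
    exact this.ne'
  rw [Function.comp_apply, e, Set.ncard_coe_finset, card_image_of_injective _ (fun a b h => by
    have : 2 * a + 1 = 2 * b + 1 := h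
    omega)]
  unfold mn ind
  rw [Finset.sum_boole]
  push_cast
  field_simp

/-- the height at `n` and at `n + 2 j` is the same -/
def Good (j n : ℕ) : Prop := height (n + 2 * j) = height n

theorem const_ok (j : ℕ) : Tendsto (fun n : ℕ => (((fun _ : ℕ => j) n : ℕ) : ℝ) *
    Real.log (Real.log n) / √ (Real.log n)) atTop (𝓝 0) := by
  have h1 : Tendsto (fun y : ℝ => Real.log y / √ y) atTop (𝓝 0) := by
    have h := (isLittleO_log_rpow_atTop (show (0 : ℝ) < 1 / 2 by norm_num)).tendsto_div_nhds_zero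
    refine h.congr fun y => ?_
    rw [Real.sqrt_eq_rpow]
  have h2 : Tendsto (fun n : ℕ => Real.log (n : ℝ)) atTop atTop :=
    Real.tendsto_log_atTop.comp tendsto_natCast_atTop_atTop
  have h3 := (h1.comp h2).const_mul (j : ℝ)
  rw [mul_zero] at h3
  refine h3.congr fun n => ?_
  simp only [Function.comp_apply]
  ring

theorem bad_avg (j : ℕ) : Tendsto (mn (ind fun n => ¬ Good j n)) atTop (𝓝 0) := by
  classical
  have h := odd_avg (P := fun m => ∀ i ≤ j, height (m + 2 * i) = height m) (δ := 1)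
    (Pool.Agent.Results.MP_2b866c_nt.HeightRuns.result (fun _ => j) (const_ok j))
  have h2 := h.const_sub 1
  rw [sub_self] at h2
  refine squeeze_zero' (Eventually.of_forall fun K => ?_) ?_ h2
  · unfold mn
    exact div_nonneg (Finset.sum_nonneg fun k _ => ind_nonneg _ _ _) (Nat.cast_nonneg _)
  · filter_upwards [eventually_ge_atTop 1] with K hK
    have hK0 : (0 : ℝ) < K := by exact_mod_cast hK
    unfold mn
    have e : ∀ A : ℝ, 1 - A / K = ((∑ _k ∈ range K, (1 : ℝ)) - A) / K := by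
      intro A
      rw [Finset.sum_const, card_range, nsmul_eq_mul, mul_one, sub_div, div_self hK0.ne']
    rw [e, ← Finset.sum_sub_distrib]
    refine div_le_div_of_nonneg_right (Finset.sum_le_sum fun k _ => ?_) hK0.le
    unfold ind
    by_cases h1 : ∀ i ≤ j, height (2 * k + 1 + 2 * i) = height (2 * k + 1)
    · have : ¬ ¬ Good j (2 * k + 1) := fun h3 => h3 (h1 j le_rfl)
      rw [if_neg this, if_pos h1]
      norm_num
    · rw [if_neg h1]
      split_ifs <;> norm_num

/-- almost invariant weights -/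
def Inv (w : ℕ → ℕ → ℝ) : Prop := ∀ j : ℕ, Tendsto (fun K : ℕ =>
  (∑ k ∈ range K, |w (2 * K) (2 * (k + j) + 1) - w (2 * K) (2 * k + 1)|) / K) atTop (𝓝 0)

theorem inv_of {w : ℕ → ℕ → ℝ} {B : ℝ} (hB : ∀ N n, 2 ≤ N → 0 ≤ w N n ∧ w N n ≤ B)
    (h : ∀ j N n, Good j n → w N (n + 2 * j) = w N n) : Inv w := by
  classical
  intro j
  have h2 := (bad_avg j).const_mul B
  rw [mul_zero] at h2
  refine squeeze_zero' (Eventually.of_forall fun K => ?_) ?_ h2
  · exact div_nonneg (Finset.sum_nonneg fun k _ => abs_nonneg _) (Nat.cast_nonneg _)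
  · filter_upwards [eventually_ge_atTop 1] with K hK
    have hK0 : (0 : ℝ) < K := by exact_mod_cast hK
    unfold mn
    rw [← mul_div_assoc, Finset.mul_sum]
    refine div_le_div_of_nonneg_right (Finset.sum_le_sum fun k _ => ?_) hK0.le
    have e : 2 * (k + j) + 1 = 2 * k + 1 + 2 * j := by ring
    rw [e]
    unfold ind
    split_ifs with hg
    · have b1 := hB (2 * K) (2 * k + 1 + 2 * j) (by omega)
      have b2 := hB (2 * K) (2 * k + 1) (by omega)
      rw [mul_one, abs_le]
      constructor <;> linarith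
    · rw [h j (2 * K) (2 * k + 1) (not_not.1 hg), sub_self, abs_zero, mul_zero]

/-- the height of `m` is finite, at most `bound x m` and congruent to `b` modulo `q` -/
def Level (q : ℕ) (b : ℤ) (x : ℝ) (m : ℕ) : Prop :=
  ∃ h : ℕ, height m = h ∧ (h : ℝ) ≤ bound x m ∧ (h : ℤ) ≡ b [ZMOD q]

/-- the scale -/
noncomputable def sc (m : ℕ) : ℝ := Real.log 2 * Real.sqrt (2 * Real.log m / Real.log (4 / 3) ^ 3)

theorem bound_def (x : ℝ) (m : ℕ) : bound x m = 2 / Real.log (16 / 9) * Real.log m + x * sc m := rfl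

theorem sc_nonneg (m : ℕ) : 0 ≤ sc m := by
  unfold sc
  have : 0 < Real.log 2 := Real.log_pos (by norm_num)
  positivity

theorem sc_top : Tendsto sc atTop atTop := by
  have h2 : Tendsto (fun n : ℕ => Real.log (n : ℝ)) atTop atTop :=
    Real.tendsto_log_atTop.comp tendsto_natCast_atTop_atTop
  have h43 : 0 < Real.log (4 / 3) := Real.log_pos (by norm_num)
  have h3 : Tendsto (fun n : ℕ => 2 * Real.log (n : ℝ) / Real.log (4 / 3) ^ 3) atTop atTop :=
    (h2.const_mul_atTop (by norm_num : (0 : ℝ) < 2)).atTop_div_const (by positivity)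
  exact (Real.tendsto_sqrt_atTop.comp h3).const_mul_atTop (Real.log_pos (by norm_num))

theorem sqrt_add_le {a b : ℝ} (ha : 0 ≤ a) (hb : 0 ≤ b) : √(a + b) ≤ √a + √b := by
  rw [Real.sqrt_le_iff]
  refine ⟨by positivity, ?_⟩
  have h1 := Real.sq_sqrt ha
  have h2 := Real.sq_sqrt hb
  have h3 : 0 ≤ √a * √b := by positivity
  nlinarith

/-- the scales at `n` and `n + 2 j` -/
theorem sc_step (j : ℕ) {n : ℕ} (hn : 2 * j + 1 ≤ n) : sc n ≤ sc (n + 2 * j) ∧
    sc (n + 2 * j) ≤ sc n + Real.log 2 * Real.sqrt (2 / Real.log (4 / 3) ^ 3) ∧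
    Real.log n ≤ Real.log ((n + 2 * j : ℕ) : ℝ) ∧ Real.log ((n + 2 * j : ℕ) : ℝ) ≤ Real.log n + 1 := by
  have hn0 : (0 : ℝ) < n := by exact_mod_cast (by omega : 0 < n)
  have h43 : 0 < Real.log (4 / 3) := Real.log_pos (by norm_num)
  have hl2 : 0 < Real.log 2 := Real.log_pos (by norm_num)
  have a1 : Real.log n ≤ Real.log ((n + 2 * j : ℕ) : ℝ) :=
    Real.log_le_log hn0 (by exact_mod_cast (by omega : n ≤ n + 2 * j))
  have a2 : Real.log ((n + 2 * j : ℕ) : ℝ) ≤ Real.log n + 1 := by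
    have h1 : ((n + 2 * j : ℕ) : ℝ) ≤ n * 2 := by exact_mod_cast (by omega : n + 2 * j ≤ n * 2)
    have h0 : (0 : ℝ) < ((n + 2 * j : ℕ) : ℝ) := by exact_mod_cast (by omega : 0 < n + 2 * j)
    have h2 := Real.log_le_log h0 h1
    rw [Real.log_mul hn0.ne' two_ne_zero] at h2
    have := Real.log_two_lt_d9
    linarith
  refine ⟨?_, ?_, a1, a2⟩
  · unfold sc
    refine mul_le_mul_of_nonneg_left (Real.sqrt_le_sqrt ?_) hl2.le
    exact div_le_div_of_nonneg_right (by linarith) (by positivity)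
  · unfold sc
    rw [← mul_add]
    refine mul_le_mul_of_nonneg_left ?_ hl2.le
    have hln : 0 ≤ Real.log (n : ℝ) := Real.log_natCast_nonneg _
    refine (Real.sqrt_le_sqrt (y := 2 * Real.log n / Real.log (4 / 3) ^ 3 + 2 / Real.log (4 / 3) ^ 3) ?_).trans
      (sqrt_add_le (by positivity) (by positivity))
    rw [← add_div]
    exact div_le_div_of_nonneg_right (by linarith) (by positivity)

theorem bound_step (j : ℕ) (x : ℝ) {η : ℝ} (hη : 0 < η) : ∃ n₀ : ℕ, ∀ n ≥ n₀,
    bound x (n + 2 * j) ≤ bound (x + η) n ∧ bound (x - η) n ≤ bound x (n + 2 * j) := by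
  have h43 : 0 < Real.log (4 / 3) := Real.log_pos (by norm_num)
  have h169 : 0 < Real.log (16 / 9) := Real.log_pos (by norm_num)
  obtain ⟨c, hc⟩ : ∃ c, c = Real.log 2 * Real.sqrt (2 / Real.log (4 / 3) ^ 3) := ⟨_, rfl⟩
  obtain ⟨A, hA⟩ : ∃ A, A = 2 / Real.log (16 / 9) := ⟨_, rfl⟩
  have hA0 : 0 ≤ A := by rw [hA]; positivity
  obtain ⟨n1, hn1⟩ := eventually_atTop.1 (sc_top.eventually_ge_atTop ((A + |x| * c) / η))
  refine ⟨max n1 (2 * j + 1), fun n hn => ?_⟩
  have h1 := hn1 n ((le_max_left _ _).trans hn)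
  rw [div_le_iff₀ hη] at h1
  obtain ⟨s1, s2, s3, s4⟩ := sc_step j ((le_max_right _ _).trans hn)
  rw [← hc] at s2
  rw [bound_def, bound_def, bound_def, ← hA]
  have x1 : |x * (sc (n + 2 * j) - sc n)| ≤ |x| * c := by
    rw [abs_mul]
    refine mul_le_mul_of_nonneg_left ?_ (abs_nonneg _)
    rw [abs_of_nonneg (by linarith)]
    linarith
  obtain ⟨x2, x3⟩ := abs_le.1 x1
  have y1 : A * Real.log ((n + 2 * j : ℕ) : ℝ) ≤ A * Real.log n + A := by nlinarith
  have y2 : A * Real.log n ≤ A * Real.log ((n + 2 * j : ℕ) : ℝ) := mul_le_mul_of_nonneg_left s3 hA0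
  constructor <;> nlinarith

theorem level_mono {q : ℕ} {b : ℤ} {x y : ℝ} (h : x ≤ y) {n : ℕ} (hL : Level q b x n) : Level q b y n := by
  obtain ⟨k, h1, h2, h3⟩ := hL
  refine ⟨k, h1, h2.trans ?_, h3⟩
  rw [bound_def, bound_def]
  have := mul_le_mul_of_nonneg_right h (sc_nonneg n)
  linarith

theorem level_step (q : ℕ) (b : ℤ) (j : ℕ) (x : ℝ) {η : ℝ} (hη : 0 < η) : ∃ n₀ : ℕ, ∀ n ≥ n₀, Good j n →
    (Level q b (x - η) n → Level q b x (n + 2 * j)) ∧ (Level q b x (n + 2 * j) → Level q b (x + η) n) := by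
  obtain ⟨n₀, h0⟩ := bound_step j x hη
  refine ⟨n₀, fun n hn hg => ⟨?_, ?_⟩⟩
  · rintro ⟨k, h1, h2, h3⟩
    exact ⟨k, hg.trans h1, h2.trans (h0 n hn).2, h3⟩
  · rintro ⟨k, h1, h2, h3⟩
    exact ⟨k, hg.symm.trans h1, h2.trans (h0 n hn).1, h3⟩

theorem Phi_cont : Continuous Phi := by
  have h : Phi = Pool.Agent.H499R2.ND.Phi := by
    funext x
    exact (Pool.Agent.H499R2.ND.phi_cdf x).symm
  rw [h]
  exact Pool.Agent.H499R2.ND.Phi_continuous

theorem inv_level {δ : ℝ} {q : ℕ} {b : ℤ}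
    (hL : ∀ x, HasOddDensity (Level q b x) (δ * Phi x / q)) (x : ℝ) : Inv (ind (Level q b x)) := by
  classical
  intro j
  rw [Metric.tendsto_atTop]
  intro ε hε
  -- the choice of `η`
  obtain ⟨η, hη, hηε⟩ : ∃ η : ℝ, 0 < η ∧ δ * Phi (x + η) / q - δ * Phi (x - η) / q < ε / 3 := by
    have hc : Continuous fun η : ℝ => δ * Phi (x + η) / q - δ * Phi (x - η) / q := by
      have := Phi_cont
      fun_prop
    have h1 : Tendsto (fun η : ℝ => δ * Phi (x + η) / q - δ * Phi (x - η) / q) (𝓝[>] 0) (𝓝 0) := by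
      have := (hc.tendsto 0).mono_left (nhdsWithin_le_nhds (s := Set.Ioi 0))
      simpa using this
    obtain ⟨η, h2, h3⟩ := ((h1.eventually (gt_mem_nhds (show (0 : ℝ) < ε / 3 by positivity))).and
      self_mem_nhdsWithin).exists
    exact ⟨η, h3, h2⟩
  obtain ⟨n₀, h0⟩ := level_step q b j x hη
  have t1 := (odd_avg (hL (x + η))).sub (odd_avg (hL (x - η)))
  have t2 := bad_avg j
  have t3 : Tendsto (fun K : ℕ => (n₀ : ℝ) / K) atTop (𝓝 0) := tendsto_const_div_atTop_nhds_zero_nat _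
  have u1 := t1.eventually (gt_mem_nhds hηε)
  have u2 := t2.eventually (gt_mem_nhds (show (0 : ℝ) < ε / 3 by positivity))
  have u3 := t3.eventually (gt_mem_nhds (show (0 : ℝ) < ε / 3 by positivity))
  obtain ⟨K0, hK0⟩ := eventually_atTop.1 (((u1.and u2).and u3).and (eventually_ge_atTop 1))
  refine ⟨K0, fun K hK => ?_⟩
  obtain ⟨⟨⟨k1, k2⟩, k3⟩, k4⟩ := hK0 K hK
  have hKp : (0 : ℝ) < K := by exact_mod_cast k4
  have hmain : (∑ k ∈ range K, |ind (Level q b x) (2 * K) (2 * (k + j) + 1) -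
      ind (Level q b x) (2 * K) (2 * k + 1)|) / K ≤
      (mn (ind (Level q b (x + η))) K - mn (ind (Level q b (x - η))) K) +
      mn (ind fun n => ¬ Good j n) K + n₀ / K := by
    unfold mn
    rw [← sub_div, ← add_div, ← add_div, ← Finset.sum_sub_distrib, ← Finset.sum_add_distrib]
    refine div_le_div_of_nonneg_right ?_ hKp.le
    have hn : ∑ k ∈ range K, (if k < n₀ then (1 : ℝ) else 0) ≤ n₀ := by
      rw [Finset.sum_boole]
      have : (((range K).filter (fun k => k < n₀)).card : ℝ) ≤ ((range n₀).card : ℝ) := by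
        exact_mod_cast card_le_card fun k hk => mem_range.2 (mem_filter.1 hk).2
      rwa [card_range] at this
    refine le_trans ?_ (add_le_add le_rfl hn)
    rw [← Finset.sum_add_distrib]
    refine Finset.sum_le_sum fun k _ => ?_
    have e : 2 * (k + j) + 1 = 2 * k + 1 + 2 * j := by ring
    rw [e]
    have hm : Level q b (x - η) (2 * k + 1) → Level q b x (2 * k + 1) := level_mono (by linarith)
    have hm' : Level q b x (2 * k + 1) → Level q b (x + η) (2 * k + 1) := level_mono (by linarith)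
    unfold ind
    by_cases hk : k < n₀
    · rw [if_pos hk]
      split_ifs <;> first | (norm_num; done) | (exfalso; tauto)
    · rw [if_neg hk]
      by_cases hg : Good j (2 * k + 1)
      · obtain ⟨g1, g2⟩ := h0 (2 * k + 1) (by omega) hg
        have : ¬ ¬ Good j (2 * k + 1) := not_not.2 hg
        rw [if_neg this]
        split_ifs <;> first | (norm_num; done) | (exfalso; tauto)
      · rw [if_pos hg]
        split_ifs <;> first | (norm_num; done) | (exfalso; tauto)
  have hnn : 0 ≤ (∑ k ∈ range K, |ind (Level q b x) (2 * K) (2 * (k + j) + 1) -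
      ind (Level q b x) (2 * K) (2 * k + 1)|) / K :=
    div_nonneg (Finset.sum_nonneg fun k _ => abs_nonneg _) hKp.le
  rw [Real.dist_eq, sub_zero, abs_of_nonneg hnn]
  linarith

end Pool.Agent.L0h63.EH
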